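import Pool.Agent.H939R3.JoinSpace2

/-!
# Spaces of numerical index one closer to Euclidean space than `√m`

MP_30533e_an, Q1: the constant `c` is at most `2√2/3`; the value `c = 1`, valid for the spaces with the
3.2 intersection property, fails in every dimension `m ≥ 11`.
-/

set_option autoImplicit false

namespace Pool.Agent.Results.MP_30533e_an.ConstantBelowOne

open Pool.Agent.H939R3.Join

/-- there is a real normed space of dimension `m` and numerical index one with an isomorphism onto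
Euclidean space of distortion less than `r` -/
def Close (m : ℕ) (r : ℝ) : Prop :=
  ∃ (X : Type) (_ : NormedAddCommGroup X) (_ : NormedSpace ℝ X),
    FiniteDimensional ℝ X ∧ Module.finrank ℝ X = m ∧
    (∀ T : X →L[ℝ] X, ∀ r : ℝ, r < ‖T‖ →
      ∃ u : X, ∃ f : X →L[ℝ] ℝ, ‖u‖ = 1 ∧ ‖f‖ = 1 ∧ f u = 1 ∧ r < |f (T u)|) ∧
    ∃ T : X ≃L[ℝ] EuclideanSpace ℝ (Fin m),
      ‖(T : X →L[ℝ] EuclideanSpace ℝ (Fin m))‖ *
        ‖(T.symm : EuclideanSpace ℝ (Fin m) →L[ℝ] X)‖ < r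

/-- the basic estimate -/
lemma close_of (m : ℕ) (hm : 11 ≤ m) {r : ℝ} (hr : 0 < r) (s : ℝ) (hs : s = √(((m - 1) / 2 : ℕ) : ℝ))
    (h : (m : ℝ) - 2 * (s - 2) ^ 2 / 9 < r ^ 2) : Close m r := by
  obtain ⟨k, hk⟩ : ∃ k, k = (m - 1) / 2 := ⟨_, rfl⟩
  obtain ⟨l, hl⟩ : ∃ l, l = m - 1 - 2 * k := ⟨_, rfl⟩
  have hkm : 2 * k + 1 + l = m := by omega
  have hk5 : 5 ≤ k := by omega
  rw [← hk] at hs
  have hkR : (5 : ℝ) ≤ k := by exact_mod_cast hk5
  have hs2 : s ^ 2 = k := by rw [hs]; exact Real.sq_sqrt (Nat.cast_nonneg k)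
  have hs2' : 2 ≤ s := by
    rw [hs]; exact Real.le_sqrt_of_sq_le (by linarith)
  have hs0 : 0 < s := by linarith
  have hmR : (m : ℝ) = 2 * k + 1 + l := by exact_mod_cast hkm.symm
  obtain ⟨T, hT⟩ := exists_T k l m hkm (a := 2 * s / 3) (by linarith)
  refine ⟨Y k l, inferInstance, inferInstance, inferInstance, by rw [finrank_Y, hkm],
    numIndexOne, T, lt_of_le_of_lt hT ?_⟩
  rw [Real.sqrt_lt' hr]
  refine lt_of_le_of_lt (le_of_eq ?_) h
  rw [← hs2, hmR, ← hs2]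
  field_simp
  ring

theorem result :
    (∀ m : ℕ, 11 ≤ m → Close m (√(m : ℝ))) ∧
    (∀ c : ℝ, 2 * √2 / 3 < c → ∃ M : ℕ, ∀ m : ℕ, M ≤ m → Close m (c * √(m : ℝ))) := by
  constructor
  · intro m hm
    have hmR : (11 : ℝ) ≤ m := by exact_mod_cast hm
    refine close_of m hm (Real.sqrt_pos.2 (by linarith)) _ rfl ?_
    rw [Real.sq_sqrt (by linarith)]
    have hk5 : 5 ≤ (m - 1) / 2 := by omega
    have hkR : (5 : ℝ) ≤ (((m - 1) / 2 : ℕ) : ℝ) := by exact_mod_cast hk5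
    have h1 : 2 < √(((m - 1) / 2 : ℕ) : ℝ) := Real.lt_sqrt_of_sq_lt (by linarith)
    have h2 : 0 < (√(((m - 1) / 2 : ℕ) : ℝ) - 2) ^ 2 := pow_pos (by linarith) 2
    linarith
  · intro c hc
    have h2 : √2 ^ 2 = 2 := Real.sq_sqrt (by norm_num)
    have h20 : 0 < √2 := Real.sqrt_pos.2 (by norm_num)
    have hc0 : 0 < c := lt_trans (by positivity) hc
    obtain ⟨δ, hδ⟩ : ∃ δ : ℝ, δ = c ^ 2 - 8 / 9 := ⟨_, rfl⟩
    have hδ0 : 0 < δ := by
      rw [hδ]
      have : (2 * √2 / 3) ^ 2 < c ^ 2 := pow_lt_pow_left₀ hc (by positivity) (by norm_num)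
      have h3 : (2 * √2 / 3) ^ 2 = 8 / 9 := by rw [div_pow, mul_pow, h2]; norm_num
      linarith
    obtain ⟨M, hM⟩ := exists_nat_gt (4 / δ ^ 2)
    refine ⟨max M 11, fun m hm => ?_⟩
    have hm11 : 11 ≤ m := le_trans (le_max_right _ _) hm
    have hmM : M ≤ m := le_trans (le_max_left _ _) hm
    have hmR : (11 : ℝ) ≤ m := by exact_mod_cast hm11
    have hmM' : (M : ℝ) ≤ m := by exact_mod_cast hmM
    obtain ⟨q, hq⟩ : ∃ q : ℝ, q = √(m : ℝ) := ⟨_, rfl⟩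
    have hq2 : q ^ 2 = m := by rw [hq]; exact Real.sq_sqrt (by linarith)
    have hq0 : 0 < q := by rw [hq]; exact Real.sqrt_pos.2 (by linarith)
    have hq1 : 1 ≤ q := by rw [hq]; exact Real.le_sqrt_of_sq_le (by linarith)
    obtain ⟨s, hs⟩ : ∃ s : ℝ, s = √(((m - 1) / 2 : ℕ) : ℝ) := ⟨_, rfl⟩
    have hs2 : s ^ 2 = (((m - 1) / 2 : ℕ) : ℝ) := by rw [hs]; exact Real.sq_sqrt (Nat.cast_nonneg _)
    have hs0 : 0 ≤ s := by rw [hs]; exact Real.sqrt_nonneg _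
    have hlow : (m : ℝ) - 2 ≤ 2 * s ^ 2 := by
      rw [hs2]
      have : m ≤ 2 * ((m - 1) / 2) + 2 := by omega
      have h5 : (m : ℝ) ≤ 2 * (((m - 1) / 2 : ℕ) : ℝ) + 2 := by exact_mod_cast this
      linarith
    have hup : s ^ 2 ≤ m := by
      rw [hs2]
      have : (m - 1) / 2 ≤ m := by omega
      exact_mod_cast this
    have hsq : s ≤ q := by
      rw [← hq2] at hup
      exact le_of_sq_le_sq hup hq0.le
    rw [← hq]
    refine close_of m hm11 (mul_pos hc0 hq0) s hs ?_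
    -- `2 < δ q`
    have h6 : 2 < δ * q := by
      have h7 : 4 / δ ^ 2 < q ^ 2 := by rw [hq2]; linarith
      rw [div_lt_iff₀ (by positivity)] at h7
      by_contra hcon
      rw [not_lt] at hcon
      have : (δ * q) ^ 2 ≤ 2 ^ 2 := pow_le_pow_left₀ (by positivity) hcon 2
      nlinarith
    have h8 : 2 * q < δ * q ^ 2 := by nlinarith
    have h9 : (c * q) ^ 2 = 8 / 9 * q ^ 2 + δ * q ^ 2 := by rw [hδ]; ring
    rw [h9, ← hq2]
    rw [← hq2] at hlow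
    nlinarith

end Pool.Agent.Results.MP_30533e_an.ConstantBelowOne
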