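import Pool.Agent.H939R3.NumIdxGeom

set_option autoImplicit false

open Real
open scoped RealInnerProductSpace

namespace Pool.Agent.Results.MP_30533e_an.CubeRootLowerBound

/-- For every `m ≥ 1`, every real `m`-dimensional normed space `X` of numerical index one and every linear
isomorphism `T` of `X` onto Euclidean `ℝ^m`: `m ≤ 6 · log (m+1) · (‖T‖ · ‖T⁻¹‖)³`, that is,
`d(X, ℓ₂^m) ≥ (m / (6 log (m+1)))^{1/3}`. -/
theorem result (m : ℕ) (hm : 1 ≤ m) (X : Type) [NormedAddCommGroup X] [NormedSpace ℝ X]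
    [FiniteDimensional ℝ X] (hX : Module.finrank ℝ X = m)
    (hn : ∀ T : X →L[ℝ] X, ∀ r : ℝ, r < ‖T‖ →
      ∃ u : X, ∃ f : X →L[ℝ] ℝ, ‖u‖ = 1 ∧ ‖f‖ = 1 ∧ f u = 1 ∧ r < |f (T u)|)
    (T : X ≃L[ℝ] EuclideanSpace ℝ (Fin m)) :
    (m : ℝ) ≤ 6 * Real.log (m + 1) *
      (‖(T : X →L[ℝ] EuclideanSpace ℝ (Fin m))‖ *
        ‖(T.symm : EuclideanSpace ℝ (Fin m) →L[ℝ] X)‖) ^ 3 := by
  have hntr : Nontrivial X := Module.nontrivial_of_finrank_pos (R := ℝ) (by rw [hX]; omega)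
  have hntrE : Nontrivial (EuclideanSpace ℝ (Fin m)) := T.symm.toEquiv.nontrivial
  set α := ‖(T : X →L[ℝ] EuclideanSpace ℝ (Fin m))‖ with hα
  set β := ‖(T.symm : EuclideanSpace ℝ (Fin m) →L[ℝ] X)‖ with hβ
  have hα0 : 0 < α := T.norm_pos
  have hβ0 : 0 < β := T.symm.norm_pos
  -- pairing on closures
  have hpair : ∀ u ∈ closure (H939NI.Vset X), ∀ f ∈ closure (H939NI.Wset X), |f u| = 1 := by
    intro u hu f hf
    have hcl : IsClosed {p : X × (X →L[ℝ] ℝ) | |p.2 p.1| = 1} :=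
      isClosed_eq ((continuous_snd.clm_apply continuous_fst).abs) continuous_const
    have hsub : closure (H939NI.Vset X ×ˢ H939NI.Wset X) ⊆ {p : X × (X →L[ℝ] ℝ) | |p.2 p.1| = 1} := by
      refine closure_minimal ?_ hcl
      rintro ⟨a, b⟩ ⟨ha, hb⟩
      exact H939NI.pairing hn ha hb
    have : (u, f) ∈ closure (H939NI.Vset X ×ˢ H939NI.Wset X) := by
      rw [closure_prod_eq]
      exact ⟨hu, hf⟩
    exact hsub this
  have hVn : ∀ u ∈ closure (H939NI.Vset X), ‖u‖ ≤ 1 := by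
    have hsub : closure (H939NI.Vset X) ⊆ Metric.closedBall 0 1 := by
      refine closure_minimal ?_ Metric.isClosed_closedBall
      intro f hf
      simpa using hf.1
    intro u hu
    simpa using hsub hu
  have hWn : ∀ f ∈ closure (H939NI.Wset X), ‖f‖ ≤ 1 := by
    have hsub : closure (H939NI.Wset X) ⊆ Metric.closedBall 0 1 := by
      refine closure_minimal ?_ Metric.isClosed_closedBall
      intro f hf
      simpa using hf.1
    intro u hu
    simpa using hsub hu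
  -- transport to the Euclidean space
  let ρ : (X →L[ℝ] ℝ) → EuclideanSpace ℝ (Fin m) := fun f =>
    (InnerProductSpace.toDual ℝ (EuclideanSpace ℝ (Fin m))).symm
      (f.comp (T.symm : EuclideanSpace ℝ (Fin m) →L[ℝ] X))
  have hρ : ∀ f g, ⟪ρ f, g⟫ = f (T.symm g) := by
    intro f g
    simp only [ρ, InnerProductSpace.toDual_symm_apply]
    rfl
  refine H939NI.core hm (T '' closure (H939NI.Vset X)) (ρ '' closure (H939NI.Wset X)) α β hα0 hβ0 ?_ ?_ ?_ ?_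
  · rintro _ ⟨u, hu, rfl⟩
    calc ‖T u‖ ≤ α * ‖u‖ := (T : X →L[ℝ] EuclideanSpace ℝ (Fin m)).le_opNorm u
      _ ≤ α * 1 := mul_le_mul_of_nonneg_left (hVn u hu) hα0.le
      _ = α := mul_one _
  · rintro _ ⟨f, hf, rfl⟩
    calc ‖ρ f‖ = ‖f.comp (T.symm : EuclideanSpace ℝ (Fin m) →L[ℝ] X)‖ := by
          simp only [ρ, LinearIsometryEquiv.norm_map]
      _ ≤ ‖f‖ * β := f.opNorm_comp_le _
      _ ≤ 1 * β := mul_le_mul_of_nonneg_right (hWn f hf) hβ0.le
      _ = β := one_mul _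
  · rintro _ ⟨u, hu, rfl⟩ _ ⟨f, hf, rfl⟩
    rw [real_inner_comm, hρ, T.symm_apply_apply]
    exact hpair u hu f hf
  · intro g
    obtain ⟨f, hf, hfx⟩ := H939NI.norming_W (T.symm g)
    obtain ⟨u, hu, huh⟩ := H939NI.norming_V
      ((innerSL ℝ g).comp (T : X →L[ℝ] EuclideanSpace ℝ (Fin m)))
    refine ⟨T u, ⟨u, hu, rfl⟩, ρ f, ⟨f, hf, rfl⟩, ?_⟩
    set h := (innerSL ℝ g).comp (T : X →L[ℝ] EuclideanSpace ℝ (Fin m)) with hh
    have hval : ∀ x, h x = ⟪g, T x⟫ := fun x => rfl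
    have h1 : ‖g‖ ^ 2 = h (T.symm g) := by
      rw [hval, T.apply_symm_apply, real_inner_self_eq_norm_sq]
    calc ‖g‖ ^ 2 = h (T.symm g) := h1
      _ ≤ ‖h (T.symm g)‖ := Real.le_norm_self _
      _ ≤ ‖h‖ * ‖T.symm g‖ := h.le_opNorm _
      _ ≤ h u * f (T.symm g) := mul_le_mul huh hfx (norm_nonneg _) ((norm_nonneg _).trans huh)
      _ ≤ |h u| * |f (T.symm g)| :=
          mul_le_mul (le_abs_self _) (le_abs_self _) ((norm_nonneg _).trans hfx) (abs_nonneg _)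
      _ = |⟪g, T u⟫| * |⟪g, ρ f⟫| := by rw [hval, real_inner_comm (ρ f) g, hρ]

end Pool.Agent.Results.MP_30533e_an.CubeRootLowerBound
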